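import Mathlib
import Pool.Agent.Q76.BmFinal

/-!
# Invariant measures of full Minkowski dimension on Bedford-McMullen carpets

Every Bedford-McMullen carpet carries an invariant measure whose Minkowski dimension is the
Minkowski dimension of the carpet. The measure is a mixture, with subexponential weights, of
stationary processes which switch periodically between the uniform distribution on the digits and
a column uniform distribution.
-/

namespace Pool.Agent.Results.MP_4f9d30_an.InvariantFullMinkowski

open Q76.BM MeasureTheory

/-- `μ` is an invariant measure supported on the carpet of `D`: the image under the coding map of a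
shift invariant Borel probability measure on `D^ℕ`. -/
def IsInvariantMeasure {m n : ℕ} (D : Finset (Fin m × Fin n)) (μ : Measure Pl) : Prop :=
  ∃ ν : Measure (ℕ → D), IsProbabilityMeasure ν ∧ MeasurePreserving shift ν ν ∧
    Measurable (coding (D := D)) ∧ μ = ν.map coding

/-- For all integers `2 ≤ m < n`, every digit set `D` with at least two elements and its
Bedford-McMullen carpet `Λ`, there is an invariant measure `μ` supported on `Λ` with
`dim_M μ = dim_M Λ`; moreover the common value is McMullen's `log M / log m + log (N/M) / log n`
and the image of the coding map is `Λ`. -/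
theorem result {m n : ℕ} (hm : 2 ≤ m) (hmn : m < n) (D : Finset (Fin m × Fin n))
    (hD : 2 ≤ D.card) (Λ : Set Pl) (hΛ : IsCarpet D Λ) :
    ∃ μ : Measure Pl, IsInvariantMeasure D μ ∧ HasMinkowskiDim Λ (minkowskiDim μ) ∧
      minkowskiDim μ = dimValue D ∧ (exponents μ).Nonempty ∧
        Set.range (coding (D := D)) = Λ := by
  have hne : D.Nonempty := Finset.card_pos.mp (by omega)
  have hr := hΛ.range_coding hm (by omega)
  have h1 := minkowskiDim_eq hne hm hmn hΛ
  have h2 := hasMinkowskiDim hne hm hmn
  rw [hr] at h2
  refine ⟨(nu D).map coding, ⟨nu D, nu_prob hne hm hmn, ⟨measurable_shift, nu_shift hne⟩,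
    measurable_coding hm hmn, rfl⟩, ?_, h1, ?_, hr⟩
  · rw [h1]
    exact h2
  · by_contra h3
    rw [Set.not_nonempty_iff_eq_empty] at h3
    unfold minkowskiDim at h1
    rw [h3, Real.sInf_empty] at h1
    -- the value is positive
    have hM : 0 < numCols D := (hne.image _).card_pos
    have hMN : numCols D ≤ D.card := Finset.card_image_le
    have h4 : 0 < Real.log m := Real.log_pos (by exact_mod_cast (by omega : 1 < m))
    have h5 : 0 < Real.log n := Real.log_pos (by exact_mod_cast (by omega : 1 < n))
    have hM' : (0 : ℝ) < numCols D := by exact_mod_cast hM
    rcases Nat.lt_or_ge 1 (numCols D) with h6 | h6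
    · have h7 : 0 < Real.log (numCols D) := Real.log_pos (by exact_mod_cast h6)
      have h8 : 0 ≤ Real.log ((D.card : ℝ) / numCols D) := by
        apply Real.log_nonneg
        rw [le_div_iff₀ hM', one_mul]
        exact_mod_cast hMN
      have : 0 < dimValue D := by
        unfold dimValue
        positivity
      linarith
    · have h7 : numCols D = 1 := by omega
      have : 0 < dimValue D := by
        unfold dimValue
        rw [h7]
        simp only [Nat.cast_one, Real.log_one, zero_div, div_one, zero_add]
        have : 0 < Real.log D.card := Real.log_pos (by exact_mod_cast (by omega : 1 < D.card))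
        positivity
      linarith

end Pool.Agent.Results.MP_4f9d30_an.InvariantFullMinkowski
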